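import Pool.Agent.H78.KP.Stmts

/-!
# Project KP, module STQ: one short step for the constant `GB`
-/

set_option autoImplicit false

open MeasureTheory Set Filter Topology
open scoped ContDiff

namespace Pool.Agent.H78.KP

open Pool.Agent.H84 Pool.Agent.H84.Sym Pool.Agent.H84.Sym.P2x Pool.Agent.H19.KL
open Pool.Agent.H73.KG Pool.Agent.H20.KH

variable {E : Type} [NormedAddCommGroup E] [InnerProductSpace ℝ E]
    [FiniteDimensional ℝ E] [MeasurableSpace E] [BorelSpace E]

theorem stq_thm (hSTC : STCStmt E) (hNEX : NEXStmt E) (hWHN : WHNStmt E) : STQStmt E := by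
  intro t0 ht0 ht01
  obtain ⟨C, hC1, hC⟩ := hSTC t0 ht0 ht01
  refine ⟨C, hC1, ?_⟩
  intro K hK hTK t s η g L ht0t ht1 hs hs1 hη hg hL hGB hineq
  have ht : 0 < t := lt_of_lt_of_le ht0 ht0t
  have hL0 : 0 < L := by linarith
  have hK0 : 0 < K := by linarith
  by_contra hno
  obtain ⟨ι, hι, hdec, b, ρ, U, hWC, hGPC⟩ := hWHN t L ht hL0.le hno
  obtain ⟨u, hu, hY, hLY, hLZ⟩ := hNEX U t L hWC.pp hL0 hGPC ι b
  have hsL : 0 < Real.sqrt L := Real.sqrt_pos.2 hL0
  have hsLsq : Real.sqrt L * Real.sqrt L = L := Real.mul_self_sqrt hL0.le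
  have hss : 0 ≤ Real.sqrt s := Real.sqrt_nonneg s
  have hlam : 0 < 1 / (K * Real.sqrt L) := by positivity
  have hmain := hC (K ^ 2) (sq_nonneg K) hTK t s η g ht0t ht1 hs hs1 hη hg hGB ι b ρ U hWC u
    (1 / (K * Real.sqrt L)) hu hlam
  have hZ0 : 0 ≤ Z1 b U u := integral_nonneg fun x =>
    Finset.sum_nonneg fun i _ => Finset.sum_nonneg fun j _ => sq_nonneg _
  set Y := Y1 U u with hYdef
  set Z := Z1 b U u with hZdef
  set V := cv U u u with hVdef
  -- the algebra
  have hZY : Z ≤ Y / L := by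
    rw [le_div_iff₀ hL0]
    linarith
  have hZY1 : Z ≤ Y := by
    have : Y / L ≤ Y := div_le_self hY.le hL
    linarith
  have e1 : 1 / (K * Real.sqrt L) * K ^ 2 = K / Real.sqrt L := by
    field_simp
  have e2 : 1 / (1 / (K * Real.sqrt L)) = K * Real.sqrt L := by
    rw [one_div_one_div]
  have h1 : 1 / (1 / (K * Real.sqrt L)) * Z ≤ K / Real.sqrt L * Y := by
    rw [e2]
    have : K * Real.sqrt L * Z ≤ K * Real.sqrt L * (Y / L) :=
      mul_le_mul_of_nonneg_left hZY (by positivity)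
    refine this.trans (le_of_eq ?_)
    rw [div_mul_eq_mul_div, mul_div_assoc', div_eq_div_iff hL0.ne' hsL.ne']
    calc K * Real.sqrt L * Y * Real.sqrt L = K * Y * (Real.sqrt L * Real.sqrt L) := by ring
      _ = K * Y * L := by rw [hsLsq]
  have hCs : 0 ≤ C * Real.sqrt s := by positivity
  have hKL : 0 ≤ K / Real.sqrt L := by positivity
  have h2 : 1 / (K * Real.sqrt L) * K ^ 2 * ((1 + C * Real.sqrt s) * Y + C * Real.sqrt s * Z) ≤
      K / Real.sqrt L * ((1 + 2 * (C * Real.sqrt s)) * Y) := by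
    rw [e1]
    refine mul_le_mul_of_nonneg_left ?_ hKL
    nlinarith [mul_le_mul_of_nonneg_left hZY1 hCs]
  have h3 : 1 / (K * Real.sqrt L) * K ^ 2 * ((1 + C * Real.sqrt s) * Y + C * Real.sqrt s * Z) +
      1 / (1 / (K * Real.sqrt L)) * Z ≤ 2 * K * (1 + C * Real.sqrt s) / Real.sqrt L * Y := by
    refine (add_le_add h2 h1).trans (le_of_eq ?_)
    ring
  have hst : 0 ≤ s / t := by positivity
  have h4 : V ≤ g * (Y * (1 + s * η ^ 2 / (4 * t)) +
      s / t * (2 * K * (1 + C * Real.sqrt s) / Real.sqrt L * Y)) + s * (1 + C * s) * V := by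
    refine hmain.trans ?_
    have := mul_le_mul_of_nonneg_left h3 hst
    have := mul_le_mul_of_nonneg_left (add_le_add_right this (Y * (1 + s * η ^ 2 / (4 * t)))) hg.le
    linarith
  have h5 : g * (Y * (1 + s * η ^ 2 / (4 * t)) +
      s / t * (2 * K * (1 + C * Real.sqrt s) / Real.sqrt L * Y)) =
      g * (1 + s / t * (η ^ 2 / 4 + 2 * K * (1 + C * Real.sqrt s) / Real.sqrt L)) * Y := by
    field_simp
    ring
  rw [h5] at h4
  have h6 : V ≤ (1 - s - C * s ^ 2) * L * Y + s * (1 + C * s) * V :=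
    h4.trans (by have := mul_le_mul_of_nonneg_right hineq hY.le; linarith)
  have hpos : 0 < g * (1 + s / t * (η ^ 2 / 4 + 2 * K * (1 + C * Real.sqrt s) / Real.sqrt L)) := by
    positivity
  have h7 : 0 < 1 - s - C * s ^ 2 := by
    by_contra hneg
    have : (1 - s - C * s ^ 2) * L ≤ 0 := mul_nonpos_of_nonpos_of_nonneg (not_lt.1 hneg) hL0.le
    linarith
  have h8 : (1 - s - C * s ^ 2) * V ≤ (1 - s - C * s ^ 2) * (L * Y) := by nlinarith
  have h9 : V ≤ L * Y := le_of_mul_le_mul_left h8 h7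
  linarith

end Pool.Agent.H78.KP
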